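import Pool.Agent.L5helper86.UL.Gold6

/-! The quadruple `m - 2`, `m`, `m + 4`, `m + 10` in the semi-random model: local factors. -/

set_option autoImplicit false

namespace Pool.Agent.L5helper55.SQ

open Finset Polynomial MeasureTheory ProbabilityTheory Filter Topology
open Pool.Agent.L5helper2.BH (pr mem_pr)
open Pool.Agent.L5helper2.RS (Vp Vp_eq Vp_pos Vp_le Vp_mertens)
open Pool.Agent.L5helper86.UL (US US_le rc rc_mem rc_iff rc_eq densS densS_eq PT SR Sys semi_law VV)

/-- the shifts -/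
def sh : Fin 4 → ℤ := ![-2, 0, 4, 10]

/-- the four polynomials -/
noncomputable def qd (i : Fin 4) : ℤ[X] := X + C (sh i)

lemma qd_eval (i : Fin 4) (m : ℤ) : (qd i).eval m = m + sh i := by
  unfold qd
  rw [eval_add, eval_X, eval_C]

/-- the number of the residues `t` modulo `p` for which `p` divides `(t - 2) t (t + 4) (t + 10)` -/
def rho (p : ℕ) : ℕ := #((range p).filter fun t : ℕ => (p : ℤ) ∣ ((t : ℤ) - 2) * t * (t + 4) * (t + 10))

lemma rho_two : rho 2 = 1 := by decide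

lemma rho_three : rho 3 = 2 := by decide

lemma rho_five : rho 5 = 3 := by decide

lemma sh_inj {p : ℕ} (hp : p.Prime) (h7 : 7 ≤ p) {i j : Fin 4} (h : sh i ≡ sh j [ZMOD p]) : i = j := by
  have h1 := Int.modEq_iff_dvd.1 h
  have key : ∀ d : ℕ, 0 < d → d ≤ 12 → d ≠ 7 → d ≠ 11 → ¬ (p : ℤ) ∣ (d : ℤ) := by
    intro d hd0 hd hd7 hd11 h2
    have h3 : p ∣ d := by exact_mod_cast h2
    have h4 := Nat.le_of_dvd hd0 h3
    have h5 : p ≤ 12 := by omega
    have h6 : p = 7 ∨ p = 11 := by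
      interval_cases p <;> first | omega | (exact absurd hp (by norm_num))
    rcases h6 with rfl | rfl <;> omega
  have key' : ∀ d : ℤ, 0 < d → d ≤ 12 → d ≠ 7 → d ≠ 11 → ¬ (p : ℤ) ∣ d := by
    intro d hd0 hd hd7 hd11 h2
    obtain ⟨e, rfl⟩ := Int.eq_ofNat_of_zero_le hd0.le
    exact key e (by omega) (by omega) (by omega) (by omega) h2
  have key2 : ∀ d : ℤ, d < 0 → -12 ≤ d → d ≠ -7 → d ≠ -11 → ¬ (p : ℤ) ∣ d := by
    intro d hd0 hd hd7 hd11 h2
    exact key' (-d) (by omega) (by omega) (by omega) (by omega) ((dvd_neg).2 h2)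
  by_contra hij
  have hd : ∀ i j : Fin 4, i ≠ j → (0 < sh j - sh i ∨ sh j - sh i < 0) ∧ -12 ≤ sh j - sh i ∧ sh j - sh i ≤ 12 ∧
      sh j - sh i ≠ 7 ∧ sh j - sh i ≠ 11 ∧ sh j - sh i ≠ -7 ∧ sh j - sh i ≠ -11 := by decide
  obtain ⟨a1, a2, a3, a4, a5, a6, a7⟩ := hd i j hij
  rcases a1 with a1 | a1
  · exact key' _ a1 a3 a4 a5 h1
  · exact key2 _ a1 a2 a6 a7 h1

/-- the number of the residues killed by one common class -/
def cls (e : ℤ) (p : ℕ) : ℕ := #((range p).filter fun t : ℕ => ∃ i : Fin 4, (t : ℤ) + sh i ≡ e [ZMOD p])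

lemma shift_iff (t s e : ℤ) (p : ℕ) : t + s ≡ e [ZMOD p] ↔ t ≡ e - s [ZMOD p] := by
  constructor
  · intro h
    have h2 := h.sub_right s
    have e1 : t + s - s = t := by ring
    rwa [e1] at h2
  · intro h
    have h2 := h.add_right s
    have e1 : e - s + s = e := by ring
    rwa [e1] at h2

lemma cls_four {p : ℕ} (hp : p.Prime) (h7 : 7 ≤ p) (e : ℤ) : cls e p = 4 := by
  have hp0 := hp.pos
  have h : (range p).filter (fun t : ℕ => ∃ i : Fin 4, (t : ℤ) + sh i ≡ e [ZMOD p]) =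
      (univ : Finset (Fin 4)).image (fun i => rc p (e - sh i)) := by
    ext t
    rw [mem_filter, mem_image]
    constructor
    · rintro ⟨ht, i, hi⟩
      refine ⟨i, mem_univ _, ?_⟩
      exact ((rc_iff hp0 ht _).1 ((shift_iff _ _ _ _).1 hi)).symm
    · rintro ⟨i, _, rfl⟩
      refine ⟨rc_mem hp0 _, i, ?_⟩
      rw [shift_iff]
      exact (rc_iff hp0 (rc_mem hp0 _) _).2 rfl
  unfold cls
  rw [h, card_image_of_injective, card_univ, Fintype.card_fin]
  intro i j hij
  have h1 : e - sh i ≡ e - sh j [ZMOD p] := (rc_eq hp0 _ _).1 hij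
  have h2 := (Int.ModEq.refl (n := (p : ℤ)) e).sub h1
  have e1 : e - (e - sh i) = sh i := by ring
  have e2 : e - (e - sh j) = sh j := by ring
  rw [e1, e2] at h2
  exact sh_inj hp h7 h2

lemma rho_cls {p : ℕ} (hp : p.Prime) : rho p = cls 0 p := by
  unfold rho cls
  refine congrArg card (filter_congr fun t _ => ?_)
  have hpz : Prime (p : ℤ) := Nat.prime_iff_prime_int.1 hp
  rw [hpz.dvd_mul, hpz.dvd_mul, hpz.dvd_mul]
  have key : ∀ x : ℤ, x ≡ 0 [ZMOD p] ↔ (p : ℤ) ∣ x := fun x => Int.modEq_zero_iff_dvd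
  simp only [key]
  constructor
  · rintro (((h | h) | h) | h)
    · exact ⟨0, by simpa [sh, sub_eq_add_neg] using h⟩
    · exact ⟨1, by simpa [sh] using h⟩
    · exact ⟨2, by simpa [sh] using h⟩
    · exact ⟨3, by simpa [sh] using h⟩
  · rintro ⟨i, h⟩
    fin_cases i
    · left; left; left
      simpa [sh, sub_eq_add_neg] using h
    · left; left; right
      simpa [sh] using h
    · left; right
      simpa [sh] using h
    · right
      simpa [sh] using h

lemma rho_four {p : ℕ} (hp : p.Prime) (h7 : 7 ≤ p) : rho p = 4 := by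
  rw [rho_cls hp, cls_four hp h7]

lemma US_le4 (a : ℕ → ℕ) (α : Finset (Fin 4) × Finset (Fin 4)) {p : ℕ} (hp : 0 < p) :
    US qd (fun _ => 0) a α p ≤ 4 := by
  classical
  have h : (range p).filter (fun t : ℕ => (∃ i ∈ α.1 \ α.2, (qd i).eval (t : ℤ) ≡ (a p : ℤ) [ZMOD p]) ∨
      ∃ i ∈ α.2, (qd i).eval (t : ℤ) ≡ 0 [ZMOD p]) ⊆
      (univ : Finset (Fin 4)).image (fun i => rc p ((if i ∈ α.2 then 0 else (a p : ℤ)) - sh i)) := by
    intro t ht
    rw [mem_filter] at ht
    rw [mem_image]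
    obtain ⟨ht, ⟨i, hi, h1⟩ | ⟨i, hi, h1⟩⟩ := ht
    · refine ⟨i, mem_univ _, ?_⟩
      rw [if_neg (Finset.mem_sdiff.1 hi).2]
      rw [qd_eval, shift_iff] at h1
      exact ((rc_iff hp ht _).1 h1).symm
    · refine ⟨i, mem_univ _, ?_⟩
      rw [if_pos hi]
      rw [qd_eval, shift_iff] at h1
      exact ((rc_iff hp ht _).1 h1).symm
  unfold US
  refine (card_le_card h).trans (card_image_le.trans ?_)
  rw [card_univ, Fintype.card_fin]

lemma US_univ (a : ℕ → ℕ) {α : Finset (Fin 4) × Finset (Fin 4)} (h2 : α.2 = univ) {p : ℕ} (hp : p.Prime) :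
    US qd (fun _ => 0) a α p = rho p := by
  classical
  rw [rho_cls hp]
  unfold US cls
  refine congrArg card (filter_congr fun t _ => ?_)
  simp only [h2, Finset.mem_sdiff, mem_univ, not_true_eq_false, and_false, false_and, exists_false, false_or, true_and, qd_eval]

lemma US_rand (a : ℕ → ℕ) {α : Finset (Fin 4) × Finset (Fin 4)} (h1 : α.1 = univ) (h2 : α.2 = ∅) (p : ℕ) :
    US qd (fun _ => 0) a α p = cls (a p) p := by
  classical
  unfold US cls
  refine congrArg card (filter_congr fun t _ => ?_)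
  simp only [h1, h2, sdiff_empty, Finset.notMem_empty, false_and, exists_false, or_false, mem_univ, true_and, qd_eval]

lemma US_none (a : ℕ → ℕ) {α : Finset (Fin 4) × Finset (Fin 4)} (h1 : α.1 = ∅) (h2 : α.2 = ∅) (p : ℕ) :
    US qd (fun _ => 0) a α p = 0 := by
  classical
  unfold US
  rw [card_eq_zero, filter_eq_empty_iff]
  intro t _
  simp only [h1, h2, sdiff_empty, Finset.notMem_empty, false_and, exists_false, or_false, not_false_eq_true]

/-- the sizes of the values -/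
lemma val_bounds {m : ℕ} (hm : 2 ≤ m) (i : Fin 4) :
    m - 2 ≤ ((qd i).eval (m : ℤ)).natAbs ∧ ((qd i).eval (m : ℤ)).natAbs ≤ m + 10 := by
  rw [qd_eval]
  have h : -2 ≤ sh i ∧ sh i ≤ 10 := by
    revert i
    decide
  omega

lemma coeff_b (i : Fin 4) (j : ℕ) : |(qd i).coeff j| ≤ 10 := by
        have h : -2 ≤ sh i ∧ sh i ≤ 10 := by
          revert i
          decide
        unfold qd
        rw [coeff_add, coeff_X, coeff_C]
        rw [abs_le]
        split_ifs <;> constructor <;> omega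

end Pool.Agent.L5helper55.SQ
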