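import Pool.Agent.L5helper55.SQ.A

/-! The quadruple `m - 2`, `m`, `m + 4`, `m + 10` in the semi-random model: the singular series. -/

set_option autoImplicit false

namespace Pool.Agent.L5helper55.SQ

open Finset Polynomial MeasureTheory ProbabilityTheory Filter Topology
open Pool.Agent.L5helper2.BH (pr mem_pr)
open Pool.Agent.L5helper2.RS (Vp Vp_eq Vp_pos Vp_le Vp_mertens)
open Pool.Agent.L5helper86.UL (US US_le rc rc_mem rc_iff rc_eq densS densS_eq PT SR Sys semi_law VV)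

/-- the local factor -/
noncomputable def FL (p : ℕ) : ℝ := (1 - (rho p : ℝ) / p) / (1 - 1 / (p : ℝ)) ^ 4

/-- the singular product -/
noncomputable def Sg (y : ℕ) : ℝ := ∏ p ∈ pr y, FL p

/-- the density -/
noncomputable def V4 (y : ℕ) : ℝ := ∏ p ∈ pr y, (1 - (rho p : ℝ) / p)

lemma loc_pos {p : ℕ} (hp : p.Prime) : 0 < 1 - (rho p : ℝ) / p := by
  have hp0 : (0 : ℝ) < p := by exact_mod_cast hp.pos
  rw [sub_pos, div_lt_one hp0]
  rcases lt_or_ge p 7 with h | h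
  · have h2 := hp.two_le
    interval_cases p
    · rw [rho_two]; norm_num
    · rw [rho_three]; norm_num
    · exact absurd hp (by norm_num)
    · rw [rho_five]; norm_num
    · exact absurd hp (by norm_num)
  · rw [rho_four hp h]
    have : (7 : ℝ) ≤ p := by exact_mod_cast h
    norm_num
    linarith

lemma FL_pos {p : ℕ} (hp : p.Prime) : 0 < FL p := by
  have hp0 : (2 : ℝ) ≤ p := by exact_mod_cast hp.two_le
  have h1 : 1 / (p : ℝ) ≤ 1 / 2 := one_div_le_one_div_of_le (by norm_num) hp0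
  have h2 : 0 < 1 - 1 / (p : ℝ) := by linarith
  unfold FL
  exact div_pos (loc_pos hp) (by positivity)

lemma FL_near {p : ℕ} (hp : p.Prime) (h : 7 ≤ p) : |Real.log (FL p)| ≤ 30 * (1 / (p : ℝ) ^ 2) := by
  have hp7 : (7 : ℝ) ≤ p := by exact_mod_cast h
  have hp0 : (0 : ℝ) < p := by linarith
  obtain ⟨x, hx⟩ : ∃ x : ℝ, x = 1 / (p : ℝ) := ⟨_, rfl⟩
  have hx0 : 0 < x := by rw [hx]; positivity
  have hx7 : x ≤ 1 / 7 := by rw [hx]; exact one_div_le_one_div_of_le (by norm_num) hp7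
  have e : FL p = (1 - 4 * x) / (1 - x) ^ 4 := by
    unfold FL
    rw [rho_four hp h, hx]
    push_cast
    ring
  have hd : 0 < (1 - x) ^ 4 := by
    have : 0 < 1 - x := by linarith
    positivity
  have hd1 : (1 : ℝ) / 2 ≤ (1 - x) ^ 4 := by
    have h1 : (6 / 7 : ℝ) ^ 4 ≤ (1 - x) ^ 4 := pow_le_pow_left₀ (by norm_num) (by linarith) 4
    refine le_trans ?_ h1
    norm_num
  have hle : FL p ≤ 1 := by
    rw [e, div_le_one hd]
    nlinarith [sq_nonneg x, sq_nonneg (x ^ 2), mul_pos hx0 hx0, mul_pos (mul_pos hx0 hx0) hx0,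
      mul_nonneg (mul_pos hx0 hx0).le (by linarith : 0 ≤ 1 - x)]
  have hge : 1 - 12 * x ^ 2 ≤ FL p := by
    rw [e, le_div_iff₀ hd]
    have h1 : (1 - x) ^ 4 = 1 - 4 * x + 6 * x ^ 2 - 4 * x ^ 3 + x ^ 4 := by ring
    have h2 : (1 - 12 * x ^ 2) * (1 - x) ^ 4 = (1 - x) ^ 4 - 12 * x ^ 2 * (1 - x) ^ 4 := by ring
    rw [h2, h1]
    have h3 : 12 * x ^ 2 * (1 / 2) ≤ 12 * x ^ 2 * (1 - x) ^ 4 := mul_le_mul_of_nonneg_left hd1 (by positivity)
    rw [h1] at h3
    have h4 : x ^ 4 ≤ 4 * x ^ 3 := by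
      have : x ^ 4 = x * x ^ 3 := by ring
      rw [this]
      exact mul_le_mul_of_nonneg_right (by linarith) (by positivity)
    linarith
  have hpos := FL_pos hp
  have h12 : 12 * x ^ 2 ≤ 1 / 2 := by nlinarith
  have hlog1 : Real.log (FL p) ≤ 0 := Real.log_nonpos hpos.le hle
  have hlog2 : -(24 * x ^ 2) ≤ Real.log (FL p) := by
    have h1 := Real.one_sub_inv_le_log_of_pos hpos
    have h2 : (FL p)⁻¹ ≤ 1 + 24 * x ^ 2 := by
      rw [inv_le_comm₀ hpos (by positivity)]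
      refine le_trans ?_ hge
      rw [inv_le_iff_one_le_mul₀ (by positivity)]
      nlinarith [sq_nonneg x]
    linarith
  rw [abs_le]
  have e2 : 1 / (p : ℝ) ^ 2 = x ^ 2 := by rw [hx]; ring
  rw [e2]
  constructor
  · nlinarith [sq_nonneg x]
  · nlinarith [sq_nonneg x]

/-- the singular series -/
theorem Sg_lim : ∃ S : ℝ, 0 < S ∧ Tendsto Sg atTop (𝓝 S) := by
  classical
  obtain ⟨G, hG⟩ : ∃ G : ℕ → ℝ, G = fun n => if n.Prime then Real.log (FL n) else 0 := ⟨_, rfl⟩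
  have hs : Summable G := by
    have h1 : Summable (fun n : ℕ => 30 * (1 / (n : ℝ) ^ 2)) :=
      (Real.summable_one_div_nat_pow.2 (by norm_num)).mul_left 30
    refine Summable.of_norm_bounded_eventually h1 ?_
    rw [Nat.cofinite_eq_atTop]
    filter_upwards [eventually_ge_atTop 7] with n hn
    rw [hG, Real.norm_eq_abs]
    simp only
    split_ifs with h
    · exact FL_near h hn
    · rw [abs_zero]
      positivity
  have h2 := hs.hasSum.tendsto_sum_nat
  have h3 : Tendsto (fun y : ℕ => Real.exp (∑ i ∈ range (y + 1), G i)) atTop (𝓝 (Real.exp (∑' i, G i))) :=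
    (Real.continuous_exp.tendsto _).comp (h2.comp (tendsto_add_atTop_nat 1))
  refine ⟨Real.exp (∑' i, G i), Real.exp_pos _, h3.congr fun y => ?_⟩
  rw [Real.exp_sum]
  unfold Sg
  have h4 : pr y = (range (y + 1)).filter Nat.Prime := by
    ext p
    rw [mem_pr, mem_filter, mem_range]
    constructor
    · rintro ⟨a, b⟩
      exact ⟨by omega, b⟩
    · rintro ⟨a, b⟩
      exact ⟨by omega, b⟩
  rw [h4, prod_filter]
  refine prod_congr rfl fun p _ => ?_
  rw [hG]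
  simp only
  split_ifs with h
  · rw [Real.exp_log (FL_pos h)]
  · rw [Real.exp_zero]

lemma Vp_pr (y : ℕ) : Vp y = ∏ p ∈ pr y, (1 - 1 / (p : ℝ)) := by
  rw [Vp_eq]
  refine prod_congr ?_ fun _ _ => rfl
  ext p
  rw [mem_filter, mem_Icc, mem_pr]
  constructor
  · rintro ⟨⟨_, h2⟩, h3⟩
    exact ⟨h2, h3⟩
  · rintro ⟨h2, h3⟩
    exact ⟨⟨h3.one_lt.le, h2⟩, h3⟩

lemma V4_eq (y : ℕ) : V4 y = Sg y * (Vp y) ^ 4 := by
  unfold V4 Sg FL
  rw [Vp_pr, ← prod_pow, ← prod_mul_distrib]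
  refine prod_congr rfl fun p hp => ?_
  have hp2 : (2 : ℝ) ≤ p := by exact_mod_cast (mem_pr.1 hp).2.two_le
  have h2 : 1 / (p : ℝ) ≤ 1 / 2 := one_div_le_one_div_of_le (by norm_num) hp2
  have h3 : (1 - 1 / (p : ℝ)) ^ 4 ≠ 0 := by
    have : 0 < 1 - 1 / (p : ℝ) := by linarith
    positivity
  rw [div_mul_cancel₀ _ h3]

lemma V4_pos (y : ℕ) : 0 < V4 y := prod_pos fun _ hp => loc_pos (mem_pr.1 hp).2

lemma loc_le (p : ℕ) : 1 - (rho p : ℝ) / p ≤ 1 := by
  have : (0 : ℝ) ≤ (rho p : ℝ) / p := by positivity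
  linarith

lemma pr_mono {x y : ℕ} (h : x ≤ y) : pr x ⊆ pr y := fun p hp => by
  rw [mem_pr] at hp ⊢
  exact ⟨hp.1.trans h, hp.2⟩

lemma V4_anti {x y : ℕ} (h : x ≤ y) : V4 y ≤ V4 x := by
  unfold V4
  rw [← prod_sdiff (pr_mono h)]
  refine mul_le_of_le_one_left (V4_pos x).le ?_
  exact prod_le_one (fun p hp => (loc_pos (mem_pr.1 (Finset.mem_sdiff.1 hp).1).2).le) fun p _ => loc_le p

/-- uniform asymptotics of `V4` -/
lemma V4_unif {θ : ℝ} (hθ : 0 < θ) {S : ℝ} (hS0 : 0 < S) (hS : Tendsto Sg atTop (𝓝 S)) {η : ℝ} (hη : 0 < η) :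
    ∀ᶠ n : ℕ in atTop, ∀ y : ℕ, n ≤ y ^ 2 → y ^ 2 ≤ 31 * n →
      |(Real.log n) ^ 4 * V4 ⌊(y : ℝ) ^ θ⌋₊ - 16 * (Real.exp (-Real.eulerMascheroniConstant) / θ) ^ 4 * S| ≤ η := by
  obtain ⟨c, hc⟩ : ∃ c, c = Real.exp (-Real.eulerMascheroniConstant) / θ := ⟨_, rfl⟩
  have hlim := Pool.Agent.L5helper86.UL.VV_lim hθ
  rw [← hc] at hlim ⊢
  have hfl := Pool.Agent.L5helper86.UL.floorT hθ
  -- the function of `y`
  obtain ⟨g, hg⟩ : ∃ g : ℕ → ℝ, g = fun y : ℕ => V4 ⌊(y : ℝ) ^ θ⌋₊ * (Real.log y) ^ 4 := ⟨_, rfl⟩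
  have hg1 : Tendsto g atTop (𝓝 (S * c ^ 4)) := by
    have h1 := (hS.comp hfl).mul (hlim.pow 4)
    refine h1.congr fun y => ?_
    rw [hg]
    simp only [Function.comp_apply]
    rw [V4_eq]
    unfold Pool.Agent.L5helper86.UL.VV
    ring
  have hlogT : Tendsto (fun y : ℕ => Real.log y) atTop atTop := Real.tendsto_log_atTop.comp tendsto_natCast_atTop_atTop
  have hhi : Tendsto (fun y : ℕ => 16 * g y) atTop (𝓝 (16 * c ^ 4 * S)) := by
    have := hg1.const_mul 16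
    have e : 16 * (S * c ^ 4) = 16 * c ^ 4 * S := by ring
    rwa [e] at this
  have hlo : Tendsto (fun y : ℕ => 16 * g y * (1 - Real.log 31 / (2 * Real.log y)) ^ 4) atTop (𝓝 (16 * c ^ 4 * S)) := by
    have h1 : Tendsto (fun y : ℕ => Real.log 31 / (2 * Real.log y)) atTop (𝓝 0) :=
      tendsto_const_nhds.div_atTop (hlogT.const_mul_atTop (by norm_num))
    have h2 := ((h1.const_sub 1).pow 4)
    have h3 := hhi.mul h2
    simpa using h3
  have e1 := hhi.eventually_le_const (show 16 * c ^ 4 * S < 16 * c ^ 4 * S + η by linarith)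
  have e2 := hlo.eventually_const_le (show 16 * c ^ 4 * S - η < 16 * c ^ 4 * S by linarith)
  have e3 := hlogT.eventually_ge_atTop (Real.log 31 / 2 + 1)
  obtain ⟨y0, hy0⟩ := eventually_atTop.1 ((e1.and e2).and e3)
  filter_upwards [eventually_ge_atTop (y0 ^ 2 + 1)] with n hn y hy1 hy2
  have hyy : y0 ≤ y := by
    by_contra hcon
    push Not at hcon
    have : y ^ 2 < y0 ^ 2 := Nat.pow_lt_pow_left hcon (by norm_num)
    omega
  obtain ⟨⟨a1, a2⟩, a3⟩ := hy0 y hyy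
  have hn0 : (0 : ℝ) < n := by exact_mod_cast (by omega : 0 < n)
  have h31 : 0 ≤ Real.log 31 := Real.log_nonneg (by norm_num)
  have hly : 0 < Real.log y := by linarith
  have hy0' : (0 : ℝ) < y := by
    by_contra hcon
    have : (y : ℝ) = 0 := le_antisymm (not_lt.1 hcon) (by positivity)
    rw [this, Real.log_zero] at hly
    exact lt_irrefl _ hly
  have b1 : Real.log n ≤ 2 * Real.log y := by
    have h1 : (n : ℝ) ≤ (y : ℝ) ^ 2 := by exact_mod_cast hy1
    have h2 := Real.log_le_log hn0 h1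
    rwa [Real.log_pow, Nat.cast_ofNat] at h2
  have b2 : 2 * Real.log y ≤ Real.log 31 + Real.log n := by
    have h1 : (y : ℝ) ^ 2 ≤ 31 * n := by exact_mod_cast hy2
    have h2 := Real.log_le_log (by positivity) h1
    rwa [Real.log_pow, Nat.cast_ofNat, Real.log_mul (by norm_num) hn0.ne'] at h2
  obtain ⟨r, hr⟩ : ∃ r, r = Real.log n / (2 * Real.log y) := ⟨_, rfl⟩
  have hr1 : r ≤ 1 := by
    rw [hr, div_le_one (by positivity)]
    exact b1
  have hr2 : 1 - Real.log 31 / (2 * Real.log y) ≤ r := by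
    rw [hr]
    have : 1 - Real.log 31 / (2 * Real.log y) = (2 * Real.log y - Real.log 31) / (2 * Real.log y) := by
      field_simp
    rw [this]
    exact div_le_div_of_nonneg_right (by linarith) (by positivity)
  have hr3 : 0 ≤ 1 - Real.log 31 / (2 * Real.log y) := by
    rw [sub_nonneg, div_le_one (by positivity)]
    linarith
  have hr0 : 0 ≤ r := hr3.trans hr2
  have hgy : 0 ≤ 16 * g y := by
    rw [hg]
    have := (V4_pos ⌊(y : ℝ) ^ θ⌋₊).le
    positivity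
  have e : (Real.log n) ^ 4 * V4 ⌊(y : ℝ) ^ θ⌋₊ = 16 * g y * r ^ 4 := by
    rw [hg, hr]
    field_simp
    ring
  rw [e, abs_le]
  constructor
  · have h1 : 16 * g y * (1 - Real.log 31 / (2 * Real.log y)) ^ 4 ≤ 16 * g y * r ^ 4 :=
      mul_le_mul_of_nonneg_left (pow_le_pow_left₀ hr3 hr2 4) hgy
    linarith
  · have h1 : 16 * g y * r ^ 4 ≤ 16 * g y := mul_le_of_le_one_right hgy (pow_le_one₀ hr0 hr1)
    linarith

end Pool.Agent.L5helper55.SQ
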