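import Pool.Agent.L5helper55.SQ.B

/-! The quadruple `m - 2`, `m`, `m + 4`, `m + 10` in the semi-random model: bounds for the densities. -/

set_option autoImplicit false

namespace Pool.Agent.L5helper55.SQ

open Finset Polynomial MeasureTheory ProbabilityTheory Filter Topology
open Pool.Agent.L5helper2.BH (pr mem_pr)
open Pool.Agent.L5helper2.RS (Vp Vp_eq Vp_pos Vp_le Vp_mertens)
open Pool.Agent.L5helper86.UL (US US_le rc rc_mem rc_iff rc_eq densS densS_eq PT SR Sys semi_law VV sum_int densS_01' z_mono)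

/-- the levels -/
noncomputable def zz (θ : ℝ) : ℕ → ℝ := fun v : ℕ => (v : ℝ) ^ θ

lemma zz_mono {θ : ℝ} (hθ : 0 < θ) : Monotone (zz θ) := z_mono hθ

section

variable {θ : ℝ} {w : ℕ → ℝ} {m : ℕ}

/-- the density as a finite product -/
lemma dens_prod (hθ : 0 < θ) (hw : Monotone w) (a : ℕ → ℕ) (hm : 2 ≤ m) (hwz : w (m + 10) ≤ zz θ (m + 10)) :
    densS w (zz θ) qd (fun _ => 0) a (m : ℤ) = ∏ p ∈ pr ⌊zz θ (m + 10)⌋₊,
      (1 - (US qd (fun _ => 0) a ((PT w (zz θ) qd).lab p (m : ℤ)) p : ℝ) / p) := by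
  classical
  have hz := zz_mono hθ
  rw [densS_eq (M := ⌈zz θ (m + 10)⌉₊) (fun i => (hz (val_bounds hm i).2).trans (Nat.le_ceil _))
    fun i => ((hw (val_bounds hm i).2).trans hwz).trans (Nat.le_ceil _)]
  symm
  refine prod_subset (pr_mono (Nat.floor_le_ceil _)) fun p hp hp2 => ?_
  rw [mem_pr] at hp hp2
  have hpp := hp.2
  have h1 : zz θ (m + 10) < p := by
    by_contra hcon
    exact hp2 ⟨Nat.le_floor (not_lt.1 hcon), hpp⟩
  have h2 : ((PT w (zz θ) qd).lab p (m : ℤ)).1 = ∅ := by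
    show univ.filter (fun i => (p : ℝ) ≤ zz θ ((qd i).eval (m : ℤ)).natAbs) = ∅
    rw [filter_eq_empty_iff]
    intro i _ h
    linarith [hz (val_bounds hm i).2]
  have h3 : ((PT w (zz θ) qd).lab p (m : ℤ)).2 = ∅ := by
    show univ.filter (fun i => (p : ℝ) ≤ w ((qd i).eval (m : ℤ)).natAbs) = ∅
    rw [filter_eq_empty_iff]
    intro i _ h
    linarith [hw (val_bounds hm i).2]
  rw [US_none a h2 h3]
  simp

lemma lab_two_univ (hw : Monotone w) {p : ℕ} (hm : 2 ≤ m) (hp : (p : ℝ) ≤ w (m - 2)) :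
    ((PT w (zz θ) qd).lab p (m : ℤ)).2 = univ := by
  show univ.filter (fun i => (p : ℝ) ≤ w ((qd i).eval (m : ℤ)).natAbs) = univ
  rw [filter_eq_self]
  intro i _
  exact hp.trans (hw (val_bounds hm i).1)

/-- the lower bound -/
lemma dens_low (hθ : 0 < θ) (hw : Monotone w) (a : ℕ → ℕ) (hm : 2 ≤ m) (hwz : w (m + 10) ≤ zz θ (m + 10))
    (h5 : 5 ≤ w (m - 2)) : V4 ⌊zz θ (m + 10)⌋₊ ≤ densS w (zz θ) qd (fun _ => 0) a (m : ℤ) := by
  rw [dens_prod hθ hw a hm hwz]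
  unfold V4
  refine prod_le_prod (fun p hp => (loc_pos (mem_pr.1 hp).2).le) fun p hp => ?_
  have hpp := (mem_pr.1 hp).2
  have hp0 : (0 : ℝ) < p := by exact_mod_cast hpp.pos
  have h1 : (US qd (fun _ => 0) a ((PT w (zz θ) qd).lab p (m : ℤ)) p : ℝ) ≤ rho p := by
    rcases lt_or_ge p 7 with h | h
    · have h6 : p ≤ 5 := by
        by_contra hcon
        have : p = 6 := by omega
        subst this
        exact absurd hpp (by norm_num)
      have h7 : (p : ℝ) ≤ w (m - 2) := le_trans (by exact_mod_cast h6) h5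
      rw [US_univ a (lab_two_univ hw hm h7) hpp]
    · rw [rho_four hpp h]
      exact_mod_cast US_le4 a _ hpp.pos
  have h2 := div_le_div_of_nonneg_right h1 hp0.le
  linarith

/-- the upper bound -/
lemma dens_up (hθ : 0 < θ) (hw : Monotone w) (a : ℕ → ℕ) (hm : 2 ≤ m) (hwz : w (m + 10) ≤ zz θ (m + 10))
    (h5 : 5 ≤ w (m - 2)) (hnt : ∀ p : ℕ, (p : ℝ) ≤ w (m + 10) → (p : ℝ) ≤ w (m - 2)) :
    densS w (zz θ) qd (fun _ => 0) a (m : ℤ) ≤ V4 ⌊zz θ (m - 2)⌋₊ := by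
  classical
  have hz := zz_mono hθ
  rw [dens_prod hθ hw a hm hwz]
  unfold V4
  have hsub : pr ⌊zz θ (m - 2)⌋₊ ⊆ pr ⌊zz θ (m + 10)⌋₊ := pr_mono (Nat.floor_le_floor (hz (by omega)))
  have hf : ∀ p, (US qd (fun _ => 0) a ((PT w (zz θ) qd).lab p (m : ℤ)) p : ℝ) / p ≤ 1 := fun p =>
    div_le_one_of_le₀ (by exact_mod_cast US_le _ _ _ _ _) (by positivity)
  have hf2 : ∀ p : ℕ, (0 : ℝ) ≤ (US qd (fun _ => 0) a ((PT w (zz θ) qd).lab p (m : ℤ)) p : ℝ) / p := fun p => by positivity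
  rw [← prod_sdiff hsub]
  have h1 : ∏ p ∈ pr ⌊zz θ (m + 10)⌋₊ \ pr ⌊zz θ (m - 2)⌋₊,
      (1 - (US qd (fun _ => 0) a ((PT w (zz θ) qd).lab p (m : ℤ)) p : ℝ) / p) ≤ 1 :=
    prod_le_one (fun p _ => by linarith [hf p]) fun p _ => by linarith [hf2 p]
  have h2 : 0 ≤ ∏ p ∈ pr ⌊zz θ (m - 2)⌋₊, (1 - (US qd (fun _ => 0) a ((PT w (zz θ) qd).lab p (m : ℤ)) p : ℝ) / p) :=
    prod_nonneg fun p _ => by linarith [hf p]
  refine (mul_le_of_le_one_left h2 h1).trans (le_of_eq ?_)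
  refine prod_congr rfl fun p hp => ?_
  rw [mem_pr] at hp
  have hpp := hp.2
  have hpz : (p : ℝ) ≤ zz θ (m - 2) := (Nat.le_floor_iff' hpp.ne_zero).1 hp.1
  have hlab1 : ((PT w (zz θ) qd).lab p (m : ℤ)).1 = univ := by
    show univ.filter (fun i => (p : ℝ) ≤ zz θ ((qd i).eval (m : ℤ)).natAbs) = univ
    rw [filter_eq_self]
    intro i _
    exact hpz.trans (hz (val_bounds hm i).1)
  by_cases hpw : (p : ℝ) ≤ w (m - 2)
  · rw [US_univ a (lab_two_univ hw hm hpw) hpp]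
  · have hlab2 : ((PT w (zz θ) qd).lab p (m : ℤ)).2 = ∅ := by
      show univ.filter (fun i => (p : ℝ) ≤ w ((qd i).eval (m : ℤ)).natAbs) = ∅
      rw [filter_eq_empty_iff]
      intro i _ h
      exact hpw (hnt p (h.trans (hw (val_bounds hm i).2)))
    have h7 : 7 ≤ p := by
      by_contra hcon
      push Not at hcon
      have h6 : p ≤ 5 := by
        by_contra hcon2
        have : p = 6 := by omega
        subst this
        exact absurd hpp (by norm_num)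
      exact hpw (le_trans (by exact_mod_cast h6) h5)
    rw [US_rand a hlab1 hlab2, cls_four hpp h7, rho_four hpp h7]

end

open Classical in
/-- the number of the exceptional `m` -/
lemma bad_card {w : ℕ → ℝ} (hw : Monotone w) (u H : ℕ) :
    #((Ioc u (u + H)).filter fun m => ¬ ∀ p : ℕ, (p : ℝ) ≤ w (m + 10) → (p : ℝ) ≤ w (m - 2)) ≤
      12 * (⌊w (u + H + 10)⌋₊ + 1) := by
  obtain ⟨τ, hτ⟩ : ∃ τ : ℕ → ℕ, τ = fun p : ℕ => if h : ∃ v : ℕ, (p : ℝ) ≤ w v then Nat.find h else 0 := ⟨_, rfl⟩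
  have hsub : (Ioc u (u + H)).filter (fun m => ¬ ∀ p : ℕ, (p : ℝ) ≤ w (m + 10) → (p : ℝ) ≤ w (m - 2)) ⊆
      (range (⌊w (u + H + 10)⌋₊ + 1)).biUnion (fun p => Icc (τ p - 10) (τ p + 1)) := by
    intro m hm
    rw [mem_filter, mem_Ioc] at hm
    obtain ⟨⟨hm1, hm2⟩, hm3⟩ := hm
    push Not at hm3
    obtain ⟨p, hp1, hp2⟩ := hm3
    rw [mem_biUnion]
    refine ⟨p, ?_, ?_⟩
    · rw [mem_range, Nat.lt_succ_iff]
      refine Nat.le_floor (hp1.trans (hw (by omega)))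
    · have h : ∃ v : ℕ, (p : ℝ) ≤ w v := ⟨m + 10, hp1⟩
      have e : τ p = Nat.find h := by rw [hτ]; exact dif_pos h
      have h1 : τ p ≤ m + 10 := by rw [e]; exact Nat.find_min' h hp1
      have h2 : m - 2 < τ p := by
        by_contra hcon
        have h3 : (p : ℝ) ≤ w (τ p) := by rw [e]; exact Nat.find_spec h
        have h4 := hw (not_lt.1 hcon)
        linarith
      rw [mem_Icc]
      omega
  refine (card_le_card hsub).trans ?_
  refine (card_biUnion_le_card_mul _ _ 12 fun p _ => ?_).trans ?_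
  · rw [Nat.card_Icc]
    omega
  · rw [card_range, mul_comm]

/-- the sum of the densities -/
lemma dens_sum {θ : ℝ} (hθ : 0 < θ) {w : ℕ → ℝ} (hw : Monotone w) (a : ℕ → ℕ) {u H : ℕ} (hu : 2 ≤ u)
    (hwz : ∀ v : ℕ, u ≤ v → w v ≤ zz θ v) (h5 : 5 ≤ w (u - 1)) :
    (H : ℝ) * V4 ⌊zz θ (u + H + 10)⌋₊ ≤
        ∑ m ∈ Ioc (u : ℤ) ((u : ℤ) + (H : ℤ)), densS w (zz θ) qd (fun _ => 0) a m ∧
      ∑ m ∈ Ioc (u : ℤ) ((u : ℤ) + (H : ℤ)), densS w (zz θ) qd (fun _ => 0) a m ≤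
        (H : ℝ) * V4 ⌊zz θ (u - 1)⌋₊ + 12 * (w (u + H + 10) + 1) := by
  classical
  have hz := zz_mono hθ
  rw [sum_int]
  have hcard : (#(Ioc u (u + H)) : ℝ) = H := by
    rw [Nat.card_Ioc]
    simp
  have hw5 : ∀ m : ℕ, u < m → 5 ≤ w (m - 2) := fun m hm => h5.trans (hw (show u - 1 ≤ m - 2 by omega))
  have hwz' : ∀ m : ℕ, u < m → w (m + 10) ≤ zz θ (m + 10) := fun m hm => hwz (m + 10) (by omega)
  constructor
  · have h1 : ∀ m ∈ Ioc u (u + H), V4 ⌊zz θ (u + H + 10)⌋₊ ≤ densS w (zz θ) qd (fun _ => 0) a (m : ℤ) := by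
      intro m hm
      rw [mem_Ioc] at hm
      have h2 : zz θ (m + 10) ≤ zz θ (u + H + 10) := hz (show m + 10 ≤ u + H + 10 by omega)
      have h3 := dens_low hθ hw a (show 2 ≤ m by omega) (hwz' m hm.1) (hw5 m hm.1)
      exact (V4_anti (Nat.floor_le_floor h2)).trans h3
    calc (H : ℝ) * V4 ⌊zz θ (u + H + 10)⌋₊ = ∑ _m ∈ Ioc u (u + H), V4 ⌊zz θ (u + H + 10)⌋₊ := by
          rw [sum_const, nsmul_eq_mul, hcard]
      _ ≤ _ := sum_le_sum h1
  · have h1 : ∀ m ∈ Ioc u (u + H), densS w (zz θ) qd (fun _ => 0) a (m : ℤ) ≤ V4 ⌊zz θ (u - 1)⌋₊ +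
        (if ¬ ∀ p : ℕ, (p : ℝ) ≤ w (m + 10) → (p : ℝ) ≤ w (m - 2) then 1 else 0) := by
      intro m hm
      rw [mem_Ioc] at hm
      by_cases hc : ∀ p : ℕ, (p : ℝ) ≤ w (m + 10) → (p : ℝ) ≤ w (m - 2)
      · rw [if_neg (not_not.2 hc), add_zero]
        have h2 := dens_up hθ hw a (show 2 ≤ m by omega) (hwz' m hm.1) (hw5 m hm.1) hc
        have h3 : zz θ (u - 1) ≤ zz θ (m - 2) := hz (show u - 1 ≤ m - 2 by omega)
        exact h2.trans (V4_anti (Nat.floor_le_floor h3))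
      · rw [if_pos hc]
        have h2 := (densS_01' w (zz θ) qd (fun _ => 0) a (m : ℤ)).2
        have h3 := (V4_pos ⌊zz θ (u - 1)⌋₊).le
        linarith
    refine (sum_le_sum h1).trans ?_
    rw [sum_add_distrib, sum_const, nsmul_eq_mul, hcard, ← sum_filter, sum_const, nsmul_eq_mul, mul_one]
    have h2 := bad_card hw u H
    have h3 : ((⌊w (u + H + 10)⌋₊ : ℕ) : ℝ) ≤ w (u + H + 10) :=
      Nat.floor_le (le_trans (by norm_num) (h5.trans (hw (show u - 1 ≤ u + H + 10 by omega))))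
    have h4 : (#((Ioc u (u + H)).filter fun m => ¬ ∀ p : ℕ, (p : ℝ) ≤ w (m + 10) → (p : ℝ) ≤ w (m - 2)) : ℝ) ≤
        12 * ((⌊w (u + H + 10)⌋₊ : ℕ) + 1) := by exact_mod_cast h2
    linarith

end Pool.Agent.L5helper55.SQ
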