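import Pool.Agent.L5helper55.SQ.C

/-! The quadruple `m - 2`, `m`, `m + 4`, `m + 10` in the semi-random model: the asymptotic formula. -/

set_option autoImplicit false

namespace Pool.Agent.L5helper55.SQ

open Finset Polynomial MeasureTheory ProbabilityTheory Filter Topology
open Pool.Agent.L5helper2.BH (pr mem_pr)
open Pool.Agent.L5helper2.RS (Vp Vp_eq Vp_pos Vp_le Vp_mertens)
open Pool.Agent.L5helper86.UL (US US_le rc rc_mem rc_iff rc_eq densS densS_eq PT SR Sys semi_law VV sum_int densS_01'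
  z_mono z_bound hw_pow)

open Classical in
/-- the number of the quadruples in an interval -/
noncomputable def QQ (w : ℕ → ℝ) (θ : ℝ) (a : ℕ → ℕ) (u H : ℕ) : ℝ :=
  #((Ioc (u : ℤ) ((u : ℤ) + (H : ℤ))).filter fun m => ∀ i, SR w (zz θ) (fun _ => 0) a ((qd i).eval m))

lemma log_small {δ κ : ℝ} (hδ : 0 < δ) (hκ : 0 < κ) : ∀ᶠ n : ℕ in atTop, (Real.log n) ^ 4 ≤ κ * (n : ℝ) ^ δ := by
  have h1 : (fun x : ℝ => Real.log x ^ (4 : ℝ)) =o[atTop] fun x : ℝ => x ^ δ := isLittleO_log_rpow_rpow_atTop 4 hδ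
  have h2 := tendsto_natCast_atTop_atTop.eventually (h1.bound hκ)
  filter_upwards [h2, eventually_ge_atTop 1] with n h3 hn
  have hn1 : (1 : ℝ) ≤ n := by exact_mod_cast hn
  have hl : 0 ≤ Real.log n := Real.log_nonneg hn1
  rw [Real.norm_eq_abs, abs_of_nonneg (by positivity), Real.norm_eq_abs, abs_of_nonneg (by positivity)] at h3
  have e : Real.log n ^ (4 : ℝ) = Real.log n ^ 4 := by
    have := Real.rpow_natCast (Real.log n) 4
    simpa using this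
  rwa [e] at h3

lemma size1 {n t : ℕ} (hn : 20000 ≤ n) (ht : t ^ 2 ≤ 30 * n) : 20 * t + 100 ≤ n := by
  by_contra hcon
  push Not at hcon
  have h1 : n + 1 ≤ 20 * t + 100 := hcon
  have h2 : 19901 ≤ 20 * t := by omega
  nlinarith

/-- the asymptotic formula in short intervals -/
theorem quad_short {Ω : Type} [MeasurableSpace Ω] {P : Measure Ω} {X : ℕ → Ω → ℕ} (h : Sys P X) {θ : ℝ} (hθ : 0 < θ)
    {w : ℕ → ℝ} (hwm : Monotone w) (hw5 : ∀ᶠ v : ℕ in atTop, 5 ≤ w v)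
    (hw : ∀ ε : ℝ, 0 < ε → ∀ᶠ n : ℕ in atTop, w n ≤ Real.exp (ε * Real.log n / Real.log (Real.log n)))
    {S : ℝ} (hS0 : 0 < S) (hS : Tendsto Sg atTop (𝓝 S)) :
    ∀ᵐ ω ∂P, ∀ δ ε : ℝ, 0 < δ → 0 < ε → ∀ᶠ n : ℕ in atTop, ∀ u H : ℕ,
      29 * n ≤ u ^ 2 → (u + H) ^ 2 ≤ 30 * n → (n : ℝ) ^ δ ≤ H →
      |QQ w θ (fun p => X p ω) u H - 16 * (Real.exp (-Real.eulerMascheroniConstant) / θ) ^ 4 * S *
        (H / (Real.log n) ^ 4)| ≤ ε * (H / (Real.log n) ^ 4) := by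
  classical
  obtain ⟨c, hc⟩ : ∃ c, c = Real.exp (-Real.eulerMascheroniConstant) / θ := ⟨_, rfl⟩
  have hc0 : 0 < c := by rw [hc]; exact div_pos (Real.exp_pos _) hθ
  filter_upwards [semi_law h hwm (z_mono hθ) (z_bound hθ) hw] with ω h1 δ ε hδ hε
  obtain ⟨η, hη⟩ : ∃ η, η = ε / 4 := ⟨_, rfl⟩
  have hη0 : 0 < η := by rw [hη]; positivity
  obtain ⟨B, hB⟩ : ∃ B : ℕ, B = ⌈1 / δ⌉₊ + 1 := ⟨_, rfl⟩
  obtain ⟨H0, hH0⟩ := eventually_atTop.1 (h1 4 1 (B + 1) 1 (1 / 4) (by norm_num))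
  have hu := V4_unif hθ hS0 hS hη0
  rw [← hc] at hu ⊢
  obtain ⟨L, hL⟩ : ∃ L, L = 16 * c ^ 4 * S := ⟨_, rfl⟩
  have hL0 : 0 < L := by rw [hL]; positivity
  rw [← hL] at hu ⊢
  have hbig : ∀ᶠ n : ℕ in atTop, (max ((H0 : ℝ) + 10) (Real.exp ((L + 2 * η) / η))) ≤ (n : ℝ) ^ δ :=
    ((tendsto_rpow_atTop hδ).comp tendsto_natCast_atTop_atTop).eventually_ge_atTop _
  have hlog4 := log_small (show 0 < δ / 4 by positivity) (show 0 < min η (η / 24) by positivity)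
  obtain ⟨v1, hv1⟩ := eventually_atTop.1 (hw_pow hθ hw)
  obtain ⟨v2, hv2⟩ := eventually_atTop.1 (hw_pow (show 0 < δ / 4 by positivity) hw)
  obtain ⟨v3, hv3⟩ := eventually_atTop.1 hw5
  filter_upwards [hu, hbig, hlog4, eventually_ge_atTop 20000, eventually_ge_atTop ((v1 + v2 + v3 + 3) ^ 2)]
    with n h3 h6 h7 hn hnv u H hu1 hu2 hH
  have hn3 : (20000 : ℝ) ≤ n := by exact_mod_cast hn
  have hn0 : (0 : ℝ) < n := by linarith
  have hn1 : (1 : ℝ) ≤ n := by linarith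
  have hlog0 : 0 < Real.log n := Real.log_pos (by linarith)
  -- the sizes
  have huv : v1 + v2 + v3 + 3 ≤ u := by
    by_contra hcon
    push Not at hcon
    have h8 : u ^ 2 < (v1 + v2 + v3 + 3) ^ 2 := Nat.pow_lt_pow_left hcon (by norm_num)
    omega
  have ht := size1 hn hu2
  have hHr : (H0 : ℝ) + 10 ≤ H := (le_max_left _ _).trans (h6.trans hH)
  have hH02 : H0 + 10 ≤ H := by exact_mod_cast hHr
  have hH1 : (1 : ℝ) ≤ H := by exact_mod_cast (by omega : 1 ≤ H)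
  have hHpos : (0 : ℝ) < H := by linarith
  have hlogH : (L + 2 * η) / η ≤ Real.log H := by
    rw [Real.le_log_iff_exp_le hHpos]
    exact (le_max_right _ _).trans (h6.trans hH)
  have hlogH0 : 0 < Real.log H := lt_of_lt_of_le (by positivity) hlogH
  have hnHr : (n : ℝ) ≤ (H : ℝ) ^ B := by
    have h8 : (n : ℝ) = ((n : ℝ) ^ δ) ^ (1 / δ) := by
      rw [← Real.rpow_mul hn0.le, mul_one_div_cancel hδ.ne', Real.rpow_one]
    rw [h8]
    calc ((n : ℝ) ^ δ) ^ (1 / δ) ≤ (H : ℝ) ^ (1 / δ) := Real.rpow_le_rpow (by positivity) hH (by positivity)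
      _ ≤ (H : ℝ) ^ (B : ℝ) := by
          refine Real.rpow_le_rpow_of_exponent_le hH1 ?_
          rw [hB]
          push_cast
          have := Nat.le_ceil (1 / δ)
          linarith
      _ = _ := Real.rpow_natCast _ _
  have hnH : (n : ℤ) ≤ (H : ℤ) ^ B := by exact_mod_cast hnHr
  have hH1z : (1 : ℤ) ≤ H := by exact_mod_cast (by omega : 1 ≤ H)
  have hH10z : (10 : ℤ) ≤ H := by exact_mod_cast (by omega : 10 ≤ H)
  have hun : (u : ℤ) ≤ n := by exact_mod_cast (by omega : u ≤ n)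
  have h8 := hH0 H (by omega) (u : ℤ) (by
    rw [abs_of_nonneg (by positivity)]
    exact (hun.trans hnH).trans (pow_le_pow_right₀ hH1z (by omega))) qd
    (fun i => by
      unfold qd
      exact (natDegree_add_C).le.trans (by rw [natDegree_X])) (fun i j => by
      refine (coeff_b i j).trans (hH10z.trans ?_)
      exact le_self_pow₀ hH1z (by omega)) (fun _ => 0)
  obtain ⟨SU, hSU⟩ : ∃ SU : ℝ, SU = ∑ m ∈ Ioc (u : ℤ) ((u : ℤ) + (H : ℤ)), densS w (fun v : ℕ => (v : ℝ) ^ θ) qd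
    (fun _ => 0) (fun p => X p ω) m := ⟨_, rfl⟩
  rw [← hSU] at h8
  obtain ⟨hS0', h9⟩ := h8
  rw [pow_one] at h9
  obtain ⟨T, hT⟩ : ∃ T, T = (H : ℝ) / (Real.log n) ^ 4 := ⟨_, rfl⟩
  have hT0 : 0 < T := by rw [hT]; positivity
  rw [← hT]
  -- the sum of the densities
  have hds := dens_sum hθ hwm (fun p => X p ω) (u := u) (H := H) (by omega)
    (fun v hv => hv1 v (by omega)) (hv3 _ (by omega))
  have e0 : ∑ m ∈ Ioc (u : ℤ) ((u : ℤ) + (H : ℤ)), densS w (zz θ) qd (fun _ => 0) (fun p => X p ω) m = SU := by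
    rw [hSU]
    rfl
  rw [e0] at hds
  have a1 := h3 (u + H + 10) (by nlinarith) (by nlinarith)
  have a2 := h3 (u - 1) (by
    obtain ⟨u', rfl⟩ : ∃ u', u = u' + 1 := ⟨u - 1, by omega⟩
    rw [Nat.add_sub_cancel]
    nlinarith) (by
    have : (u - 1) ^ 2 ≤ (u + H) ^ 2 := Nat.pow_le_pow_left (by omega) 2
    omega)
  have hHT : ∀ V : ℝ, (H : ℝ) * V = ((Real.log n) ^ 4 * V) * T := by
    intro V
    rw [hT]
    field_simp
  have b1 : (L - η) * T ≤ (H : ℝ) * V4 ⌊zz θ (u + H + 10)⌋₊ := by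
    rw [hHT]
    refine mul_le_mul_of_nonneg_right ?_ hT0.le
    rw [abs_le] at a1
    have := a1.1
    unfold zz
    linarith
  have b2 : (H : ℝ) * V4 ⌊zz θ (u - 1)⌋₊ ≤ (L + η) * T := by
    rw [hHT]
    refine mul_le_mul_of_nonneg_right ?_ hT0.le
    rw [abs_le] at a2
    have := a2.2
    unfold zz
    linarith
  have hl4 : (Real.log n) ^ 4 ≤ η * (n : ℝ) ^ (δ / 4) :=
    h7.trans (mul_le_mul_of_nonneg_right (min_le_left _ _) (by positivity))
  have hl4' : (Real.log n) ^ 4 ≤ η / 24 * (n : ℝ) ^ (δ / 4) :=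
    h7.trans (mul_le_mul_of_nonneg_right (min_le_right _ _) (by positivity))
  have b3 : 12 * (w (u + H + 10) + 1) ≤ η * T := by
    have c1 : w (u + H + 10) ≤ (n : ℝ) ^ (δ / 4) := by
      refine (hv2 _ (by omega)).trans ?_
      refine Real.rpow_le_rpow (by positivity) ?_ (by positivity)
      have : u + H + 10 ≤ n := by omega
      exact_mod_cast this
    have c2 : (1 : ℝ) ≤ (n : ℝ) ^ (δ / 4) := Real.one_le_rpow hn1 (by positivity)
    have c3 : 12 * (w (u + H + 10) + 1) ≤ 24 * (n : ℝ) ^ (δ / 4) := by linarith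
    refine c3.trans ?_
    rw [hT, mul_div_assoc', le_div_iff₀ (by positivity)]
    have c4 : (n : ℝ) ^ (δ / 4) * (n : ℝ) ^ (δ / 4) ≤ H := by
      refine le_trans ?_ hH
      rw [← Real.rpow_add hn0]
      exact Real.rpow_le_rpow_of_exponent_le hn1 (by linarith)
    calc 24 * (n : ℝ) ^ (δ / 4) * (Real.log n) ^ 4 ≤ 24 * (n : ℝ) ^ (δ / 4) * (η / 24 * (n : ℝ) ^ (δ / 4)) :=
          mul_le_mul_of_nonneg_left hl4' (by positivity)
      _ = η * ((n : ℝ) ^ (δ / 4) * (n : ℝ) ^ (δ / 4)) := by ring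
      _ ≤ η * H := mul_le_mul_of_nonneg_left c4 hη0.le
  have hlow : (L - η) * T ≤ SU := b1.trans hds.1
  have hup : SU ≤ (L + 2 * η) * T := by
    refine hds.2.trans ?_
    linarith
  -- the errors
  have herr1 : SU / Real.log H ≤ η * T := by
    rw [div_le_iff₀ hlogH0]
    refine hup.trans ?_
    have h10 : L + 2 * η ≤ η * Real.log H := by
      rw [div_le_iff₀ hη0] at hlogH
      linarith
    calc (L + 2 * η) * T ≤ (η * Real.log H) * T := mul_le_mul_of_nonneg_right h10 hT0.le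
      _ = _ := by ring
  have herr2 : (H : ℝ) ^ ((1 : ℝ) / 2 + 1 / 4) ≤ η * T := by
    have h10 : (n : ℝ) ^ (δ / 4) ≤ (H : ℝ) ^ ((1 : ℝ) / 4) := by
      calc (n : ℝ) ^ (δ / 4) = ((n : ℝ) ^ δ) ^ ((1 : ℝ) / 4) := by
            rw [← Real.rpow_mul hn0.le]
            congr 1
            ring
        _ ≤ _ := Real.rpow_le_rpow (by positivity) hH (by norm_num)
    have h11 : (Real.log n) ^ 4 ≤ η * (H : ℝ) ^ ((1 : ℝ) / 4) :=
      hl4.trans (mul_le_mul_of_nonneg_left h10 hη0.le)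
    have h12 : (H : ℝ) ^ ((1 : ℝ) / 2 + 1 / 4) * (H : ℝ) ^ ((1 : ℝ) / 4) = H := by
      rw [← Real.rpow_add hHpos]
      norm_num
    have h13 : 0 < (H : ℝ) ^ ((1 : ℝ) / 2 + 1 / 4) := by positivity
    rw [hT, mul_div_assoc', le_div_iff₀ (by positivity)]
    calc (H : ℝ) ^ ((1 : ℝ) / 2 + 1 / 4) * (Real.log n) ^ 4 ≤
          (H : ℝ) ^ ((1 : ℝ) / 2 + 1 / 4) * (η * (H : ℝ) ^ ((1 : ℝ) / 4)) := mul_le_mul_of_nonneg_left h11 h13.le
      _ = η * ((H : ℝ) ^ ((1 : ℝ) / 2 + 1 / 4) * (H : ℝ) ^ ((1 : ℝ) / 4)) := by ring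
      _ = _ := by rw [h12]
  have hQQ : QQ w θ (fun p => X p ω) u H = (#((Ioc (u : ℤ) ((u : ℤ) + (H : ℤ))).filter fun m => ∀ i,
      SR w (fun v : ℕ => (v : ℝ) ^ θ) (fun _ => 0) (fun p => X p ω) ((qd i).eval m)) : ℝ) := rfl
  rw [← hQQ] at h9
  have h4η : ε * T = 4 * (η * T) := by rw [hη]; ring
  rw [h4η]
  rw [abs_le] at h9 ⊢
  have g1 := h9.1
  have g2 := h9.2
  constructor
  · linarith
  · linarith

end Pool.Agent.L5helper55.SQ
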