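import Pool.Agent.L5helper55.SQ.D
import Pool.Agent.H141R2.FS.Main1

/-! The quadruple `p - 2`, `p`, `p + 4`, `p + 10` in the semi-random model: the statements over the natural numbers. -/

set_option autoImplicit false

namespace Pool.Agent.L5helper55.SQ

open Finset Polynomial MeasureTheory ProbabilityTheory Filter Topology
open Pool.Agent.L5helper86.UL (SR Sys CC set_density sg sg_eval)

/-- the semi-random set -/
def InS (w : ℕ → ℝ) (θ : ℝ) (a : ℕ → ℕ) (r : ℕ) : Prop :=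
  0 < r ∧ ∀ p : ℕ, p.Prime → ((p : ℝ) ≤ w r → ¬ p ∣ r) ∧ (w r < p → (p : ℝ) ≤ (r : ℝ) ^ θ → ¬ r ≡ a p [MOD p])

lemma SR_iff {w : ℕ → ℝ} {θ : ℝ} {a : ℕ → ℕ} {r : ℕ} (hr : 0 < r) :
    SR w (zz θ) (fun _ => 0) a (r : ℤ) ↔ InS w θ a r := by
  unfold SR InS zz
  simp only [Int.natAbs_natCast]
  have h1 : ∀ p : ℕ, (r : ℤ) ≡ 0 [ZMOD p] ↔ p ∣ r := by
    intro p
    rw [Int.modEq_zero_iff_dvd, Int.natCast_dvd_natCast]
  have h2 : ∀ p : ℕ, (r : ℤ) ≡ (a p : ℤ) [ZMOD p] ↔ r ≡ a p [MOD p] := fun p => Int.natCast_modEq_iff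
  simp only [h1, h2]
  exact ⟨fun h => ⟨hr, h⟩, fun h => h.2⟩

/-- the four conditions -/
lemma four_iff {w : ℕ → ℝ} {θ : ℝ} {a : ℕ → ℕ} {m : ℕ} (hm : 2 < m) :
    (∀ i, SR w (zz θ) (fun _ => 0) a ((qd i).eval (m : ℤ))) ↔
      InS w θ a (m - 2) ∧ InS w θ a m ∧ InS w θ a (m + 4) ∧ InS w θ a (m + 10) := by
  have e0 : (qd 0).eval (m : ℤ) = ((m - 2 : ℕ) : ℤ) := by
    rw [qd_eval, Nat.cast_sub hm.le]
    simp only [sh]
    norm_num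
    ring
  have e1 : (qd 1).eval (m : ℤ) = (m : ℤ) := by
    rw [qd_eval]
    simp [sh]
  have e2 : (qd 2).eval (m : ℤ) = ((m + 4 : ℕ) : ℤ) := by
    rw [qd_eval]
    simp [sh]
  have e3 : (qd 3).eval (m : ℤ) = ((m + 10 : ℕ) : ℤ) := by
    rw [qd_eval]
    simp [sh]
  have b0 : SR w (zz θ) (fun _ => 0) a ((qd 0).eval (m : ℤ)) ↔ InS w θ a (m - 2) := by
    rw [e0]
    exact SR_iff (by omega)
  have b1 : SR w (zz θ) (fun _ => 0) a ((qd 1).eval (m : ℤ)) ↔ InS w θ a m := by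
    rw [e1]
    exact SR_iff (by omega)
  have b2 : SR w (zz θ) (fun _ => 0) a ((qd 2).eval (m : ℤ)) ↔ InS w θ a (m + 4) := by
    rw [e2]
    exact SR_iff (by omega)
  have b3 : SR w (zz θ) (fun _ => 0) a ((qd 3).eval (m : ℤ)) ↔ InS w θ a (m + 10) := by
    rw [e3]
    exact SR_iff (by omega)
  constructor
  · intro h
    exact ⟨b0.1 (h 0), b1.1 (h 1), b2.1 (h 2), b3.1 (h 3)⟩
  · rintro ⟨h0, h1, h2, h3⟩ i
    fin_cases i
    · exact b0.2 h0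
    · exact b1.2 h1
    · exact b2.2 h2
    · exact b3.2 h3

/-- an admissible value for `n` -/
def Ad (w : ℕ → ℝ) (θ : ℝ) (a : ℕ → ℕ) (n p : ℕ) : Prop :=
  2 < p ∧ InS w θ a (p - 2) ∧ InS w θ a p ∧ InS w θ a (p + 4) ∧ InS w θ a (p + 10) ∧
    ∃ x y z t : ℕ, n = x ^ 2 + y ^ 2 + z ^ 2 + t ^ 2 ∧ p = x + 2 * y + 5 * z

lemma Ad_iff {w : ℕ → ℝ} {θ : ℝ} {a : ℕ → ℕ} {n m : ℕ} (hm : 2 < m) (h5 : 5 ≤ w m) (h4 : ¬ 4 ∣ n)
    (h1 : 29 * n ≤ m ^ 2) (h2 : m ^ 2 ≤ 30 * n) :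
    Ad w θ a n m ↔ ∀ i, SR w (zz θ) (fun _ => 0) a ((qd i).eval (m : ℤ)) := by
  rw [four_iff hm]
  unfold Ad
  constructor
  · rintro ⟨_, a1, a2, a3, a4, _⟩
    exact ⟨a1, a2, a3, a4⟩
  · rintro ⟨a1, a2, a3, a4⟩
    refine ⟨hm, a1, a2, a3, a4, ?_⟩
    have hc : Nat.Coprime m 30 := by
      have key : ∀ q : ℕ, q.Prime → q ≤ 5 → Nat.Coprime m q := by
        intro q hq hq5
        rw [Nat.coprime_comm, hq.coprime_iff_not_dvd]
        exact (a2.2 q hq).1 (le_trans (by exact_mod_cast hq5) h5)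
      have e : 30 = 2 * 3 * 5 := by norm_num
      rw [e]
      exact ((key 2 Nat.prime_two (by norm_num)).mul_right (key 3 Nat.prime_three (by norm_num))).mul_right
        (key 5 Nat.prime_five (by norm_num))
    obtain ⟨x, y, z, t, h6, h7⟩ := Pool.Agent.H141R2.FS.rep h4 hc h1 h2
    exact ⟨x, y, z, t, h6, h7.symm⟩

open Classical in
/-- the number of the admissible values -/
lemma QQ_eq {w : ℕ → ℝ} {θ : ℝ} {a : ℕ → ℕ} {n u H : ℕ} (hu2 : 2 ≤ u) (h5 : ∀ m, u ≤ m → 5 ≤ w m) (h4 : ¬ 4 ∣ n)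
    (h1 : 29 * n ≤ u ^ 2) (h2 : (u + H) ^ 2 ≤ 30 * n) :
    (#((Ioc u (u + H)).filter fun p => Ad w θ a n p) : ℝ) = QQ w θ a u H := by
  unfold QQ
  norm_cast
  refine card_nbij' (fun r : ℕ => (r : ℤ)) (fun m : ℤ => m.toNat) ?_ ?_ ?_ ?_
  · intro r hr
    rw [mem_coe, mem_filter, mem_Ioc] at hr
    rw [mem_coe, mem_filter, mem_Ioc]
    refine ⟨by push_cast; omega, ?_⟩
    refine (Ad_iff (by omega) (h5 r (by omega)) h4 (h1.trans (Nat.pow_le_pow_left (by omega) 2))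
      ((Nat.pow_le_pow_left hr.1.2 2).trans h2)).1 hr.2
  · intro m hm
    rw [mem_coe, mem_filter, mem_Ioc] at hm
    rw [mem_coe, mem_filter, mem_Ioc]
    obtain ⟨r, rfl⟩ := Int.eq_ofNat_of_zero_le (show 0 ≤ m by omega)
    simp only [Int.toNat_natCast]
    have hr1 : u < r := by omega
    have hr2 : r ≤ u + H := by omega
    refine ⟨⟨hr1, hr2⟩, ?_⟩
    exact (Ad_iff (by omega) (h5 r (by omega)) h4 (h1.trans (Nat.pow_le_pow_left (by omega) 2))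
      ((Nat.pow_le_pow_left hr2 2).trans h2)).2 hm.2
  · intro r _
    simp
  · intro m hm
    rw [mem_coe, mem_filter, mem_Ioc] at hm
    show ((m.toNat : ℕ) : ℤ) = m
    omega

/-- the top interval is long -/
lemma top_long : ∀ᶠ n : ℕ in atTop, (n : ℝ) ^ ((1 : ℝ) / 4) ≤ ((Nat.sqrt (30 * n) - (Nat.sqrt (29 * n) + 1) : ℕ) : ℝ) ∧
    Nat.sqrt (29 * n) + 1 ≤ Nat.sqrt (30 * n) := by
  have h1 : ∀ᶠ n : ℕ in atTop, (15 : ℝ) * 15 ≤ (n : ℝ) ^ ((1 : ℝ) / 4) :=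
    ((tendsto_rpow_atTop (by norm_num : (0 : ℝ) < 1 / 4)).comp tendsto_natCast_atTop_atTop).eventually_ge_atTop _
  filter_upwards [h1, eventually_ge_atTop 1] with n h2 hn
  have hn0 : (0 : ℝ) < n := by exact_mod_cast hn
  obtain ⟨q, hq⟩ : ∃ q, q = (n : ℝ) ^ ((1 : ℝ) / 4) := ⟨_, rfl⟩
  rw [← hq] at h2 ⊢
  have hq4 : q ^ 4 = n := by
    rw [hq, ← Real.rpow_natCast, ← Real.rpow_mul hn0.le]
    norm_num
  obtain ⟨A, hA⟩ : ∃ A, A = Nat.sqrt (29 * n) := ⟨_, rfl⟩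
  obtain ⟨B, hB⟩ : ∃ B, B = Nat.sqrt (30 * n) := ⟨_, rfl⟩
  rw [← hA, ← hB]
  have a1 : A ^ 2 ≤ 29 * n := by rw [hA]; exact Nat.sqrt_le' _
  have a2 : 30 * n < (B + 1) ^ 2 := by rw [hB]; exact Nat.lt_succ_sqrt' _
  have a1' : (A : ℝ) ^ 2 ≤ 29 * q ^ 4 := by rw [hq4]; exact_mod_cast a1
  have a2' : 30 * q ^ 4 ≤ ((B : ℝ) + 1) ^ 2 := by rw [hq4]; exact_mod_cast a2.le
  have hAr : (A : ℝ) ≤ 5.4 * q ^ 2 := by
    by_contra hcon
    push Not at hcon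
    have : (5.4 * q ^ 2) ^ 2 < (A : ℝ) ^ 2 := pow_lt_pow_left₀ hcon (by positivity) (by norm_num)
    nlinarith [sq_nonneg (q ^ 2)]
  have hBr : 5.47 * q ^ 2 ≤ (B : ℝ) + 1 := by
    by_contra hcon
    push Not at hcon
    have : ((B : ℝ) + 1) ^ 2 < (5.47 * q ^ 2) ^ 2 := pow_lt_pow_left₀ hcon (by positivity) (by norm_num)
    have hq4p : 0 < q ^ 4 := by rw [hq4]; exact hn0
    nlinarith [sq_nonneg (q ^ 2)]
  have h3 : (A : ℝ) + 1 + q ≤ B := by nlinarith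
  have hq0 : 0 ≤ q := by linarith
  have h4 : (A : ℝ) + 1 ≤ B := by linarith
  have h5 : A + 1 ≤ B := by exact_mod_cast h4
  refine ⟨?_, h5⟩
  rw [Nat.cast_sub h5]
  push_cast
  linarith

end Pool.Agent.L5helper55.SQ
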